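import Mathlib
import Pool.Prelude.Def_F_458e953d
import Pool.Agent.Helper22.OracleDefs
import Pool.Agent.Helper20.Cons.Defs
import Pool.Agent.Helper20.Cons.NC
import Pool.Agent.Helper49.Cons.AccDefs
import Pool.Agent.Helper49.Cons.Alt
import Pool.Agent.Helper49.Cons.Trans

set_option autoImplicit false

namespace Pool.Agent.Helper8.Old.ConservativeTallyV2

open N68a2faeb N793a5b8e Pool.Agent.Helper22 Pool.Agent.Helper20.Cons Pool.Agent.Helper49.Cons
open Pool.Agent.Helper20.ConsG (accNC cls_accNC exists_tally_all_G)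

theorem nonempty_inter (X : Oracle) : (NPo X ∩ coNPo X).Nonempty := by
  refine ⟨fun _ => false, ⟨0, OracleProc.ofFP (fun _ => false) (FP.const _), fun x => ?_⟩,
    ⟨0, OracleProc.ofFP (fun _ => true) (FP.const _), fun x => ?_⟩⟩
  · simp [Accepts, ofFP_run]
  · rw [compl_true]
    simp [Accepts, ofFP_run]

/-- Every oracle `A` can be joined with a tally oracle `T` such that NP ∩ coNP, and at the same
time every class of a given countable family of classes with arbitrary acceptance types, has a
complete language relative to `X = join A T`, while no separation that holds relative to `A` is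
lost, and the syntactic classes, in particular the levels of the polynomial hierarchy, satisfy
exactly the same inclusions relative to `X` as relative to `A`. -/
theorem result (A : Oracle) {ι κ : Type} [Countable ι] [Countable κ] (Φ : ι → Acc)
    (Ψ : κ → Oracle → List Bool → Option Bool) (hΨ : ∀ e, LocConst (Ψ e))
    (BB : Set (List Bool → Option Bool)) (hBB : BB.Countable) :
    ∃ T : Oracle, Tally T ∧
      -- a complete language, even under reductions without oracle
      (∃ L ∈ NPo (join A T) ∩ coNPo (join A T), ∀ L' ∈ NPo (join A T) ∩ coNPo (join A T),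
        ManyOneReducible L' L) ∧
      -- the same for all classes of the family
      (∀ i, (Cls (Φ i) (join A T)).Nonempty →
        ∃ L ∈ Cls (Φ i) (join A T), ∀ L' ∈ Cls (Φ i) (join A T), ManyOneReducible L' L) ∧
      -- the operators `Ψ e` gain nothing on `BB`
      (∀ e, Ψ e (join A T) ∈ BB → ∃ Q : Oracle, Tally Q ∧ Q ∈ P ∧
        Ψ e (join A Q) = Ψ e (join A T)) ∧
      -- separations of classes with arbitrary acceptance types persist
      (∀ i j, Cls (Φ i) (join A T) ⊆ Cls (Φ j) (join A T) → Cls (Φ i) A ⊆ Cls (Φ j) A) ∧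
      -- inclusions of syntactic classes in classes persist
      (∀ i j, (Φ i).Syntactic → Cls (Φ i) A ⊆ Cls (Φ j) A →
        Cls (Φ i) (join A T) ⊆ Cls (Φ j) (join A T)) ∧
      -- the polynomial hierarchy, with P and with NP and coNP
      (∀ k b k' b', AltP (join A T) k b ⊆ AltP (join A T) k' b' ↔ AltP A k b ⊆ AltP A k' b') ∧
      (Po (join A T) = NPo (join A T) ↔ Po A = NPo A) ∧
      (NPo (join A T) = coNPo (join A T) ↔ NPo A = coNPo A) := by
  let Φ' : Unit ⊕ ι ⊕ (ℕ × Bool) → Acc := Sum.elim (fun _ => accNC)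
    (Sum.elim Φ fun c => accAlt c.1 c.2)
  obtain ⟨T, hT, h0, h1, h2, h3⟩ := exists_tally_all_G A Φ' Ψ hΨ BB hBB
  have hPH : ∀ k b k' b', AltP (join A T) k b ⊆ AltP (join A T) k' b' ↔
      AltP A k b ⊆ AltP A k' b' := by
    intro k b k' b'
    simp only [← cls_accAlt]
    exact ⟨h2 (.inr (.inr (k, b))) (.inr (.inr (k', b'))),
      h3 (.inr (.inr (k, b))) (.inr (.inr (k', b'))) (accAlt_syntactic k b)⟩
  have hNC : ∃ L ∈ NPo (join A T) ∩ coNPo (join A T), ∀ L' ∈ NPo (join A T) ∩ coNPo (join A T),
      ManyOneReducible L' L := by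
    have h := h0 (.inl ())
    change (Cls accNC (join A T)).Nonempty → ∃ L ∈ Cls accNC (join A T),
      ∀ L' ∈ Cls accNC (join A T), ManyOneReducible L' L at h
    rw [cls_accNC] at h
    exact h (nonempty_inter _)
  refine ⟨T, hT, hNC, fun i => h0 (.inr (.inl i)), h1,
    fun i j => h2 (.inr (.inl i)) (.inr (.inl j)),
    fun i j => h3 (.inr (.inl i)) (.inr (.inl j)), hPH, ?_, ?_⟩
  · rw [← AltP_zero (join A T) true, ← AltP_zero A true, ← AltP_one (join A T), ← AltP_one A,
      Set.Subset.antisymm_iff, Set.Subset.antisymm_iff, hPH, hPH]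
  · rw [← AltP_one (join A T), ← AltP_one A, ← AltP_one' (join A T), ← AltP_one' A,
      Set.Subset.antisymm_iff, Set.Subset.antisymm_iff, hPH, hPH]

end Pool.Agent.Helper8.Old.ConservativeTallyV2
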