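import Mathlib
import Pool.Prelude.Def_F_458e953d
import Pool.Agent.Helper22.OracleDefs
import Pool.Agent.Helper20.Cons.Defs
import Pool.Agent.Helper20.Cons.G
import Pool.Agent.Helper49.Cons.AccDefs
import Pool.Agent.Helper49.Cons.Alt
import Pool.Agent.Helper21.Off.Esy
import Pool.Agent.Helper21.Off.Gen
import Pool.Agent.Helper8.Sip.OffAll

set_option autoImplicit false

namespace Pool.Agent.Helper8.Old.OffSwitchV2

open N68a2faeb N793a5b8e Pool.Agent.Helper22 Pool.Agent.Helper20.Cons Pool.Agent.Helper49.Cons

/-- the tally oracle of a sequence of bits: the word `1ⁿ` belongs to it if the bit `s n` is set -/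
def tally (s : ℕ → Bool) : Oracle := fun q => decide (q = List.replicate q.length true) && s q.length

/-- What tally oracles `T`, joined to an arbitrary oracle `A`, do to the question whether NP ∩ coNP
has a complete language. If NP and coNP differ relative to the oracle `A`, then some `T` is such
that NP ∩ coNP has no complete language relative to `X = join A T`, not even under reductions
with oracle `X`, while no separation that holds relative to `A` is lost, and the syntactic classes
satisfy exactly the same inclusions relative to `X` as relative to `A`. If NP and coNP agree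
relative to `A`, then no tally oracle has this effect. And a generic `T` changes nothing: there is a
complete language relative to `join A T` if and only if there is one relative to `A`. -/
theorem result (A : Oracle) :
    (NPo A ≠ coNPo A → ∀ {ι κ : Type} [Countable ι] [Countable κ] (Φ : ι → Acc)
      (Ψ : κ → Oracle → List Bool → Option Bool), (∀ e, LocConst (Ψ e)) →
      ∀ BB : Set (List Bool → Option Bool), BB.Countable →
      ∃ T : Oracle, Tally T ∧
        -- no complete language, even under reductions with oracle
        (¬ ∃ L ∈ NPo (join A T) ∩ coNPo (join A T), ∀ L' ∈ NPo (join A T) ∩ coNPo (join A T),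
          ReducibleRel (join A T) L' L) ∧
        -- the operators `Ψ e` gain nothing on `BB`
        (∀ e, Ψ e (join A T) ∈ BB → ∃ Q : Oracle, Tally Q ∧ {q | Q q = true}.Finite ∧
          Ψ e (join A Q) = Ψ e (join A T)) ∧
        -- separations of classes with arbitrary acceptance types persist
        (∀ i j, Cls (Φ i) (join A T) ⊆ Cls (Φ j) (join A T) → Cls (Φ i) A ⊆ Cls (Φ j) A) ∧
        -- inclusions of syntactic classes in classes persist
        (∀ i j, (Φ i).Syntactic → Cls (Φ i) A ⊆ Cls (Φ j) A →
          Cls (Φ i) (join A T) ⊆ Cls (Φ j) (join A T)) ∧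
        -- the polynomial hierarchy, with P and with NP and coNP
        (∀ k b k' b', AltP (join A T) k b ⊆ AltP (join A T) k' b' ↔ AltP A k b ⊆ AltP A k' b') ∧
        (Po (join A T) = NPo (join A T) ↔ Po A = NPo A)) ∧
    -- the converse
    (NPo A = coNPo A → ∀ T : Oracle, Tally T →
      ∃ L ∈ NPo (join A T) ∩ coNPo (join A T), ∀ L' ∈ NPo (join A T) ∩ coNPo (join A T),
        ManyOneReducible L' L) ∧
    -- generic tally oracles
    (∀ᶠ s in residual (ℕ → Bool), join A (tally s) ∈ HasCompleteRel ↔ A ∈ HasCompleteRel) := by
  refine ⟨fun hA => ?_, fun hA T hT => complete_of_NPo_eq_coNPo hT hA, ?_⟩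
  swap
  · have htl : ∀ s, join A (tally s) = Pool.Agent.Helper21.Off.jt A s := by
      intro s
      rw [Pool.Agent.Helper21.Off.jt]
      congr 1
      funext q
      have hq : decide (q = List.replicate q.length true) = allTrue q := by
        rw [Bool.eq_iff_iff, decide_eq_true_iff, allTrue_iff, List.eq_replicate_iff]
        simp
      rw [tally, hq, Pool.Agent.Helper21.Off.tl]
    simp only [htl]
    by_cases hA : A ∈ HasCompleteRel
    · filter_upwards [Pool.Agent.Helper21.Off.generic_up hA] with s hs
      exact ⟨fun _ => hA, fun _ => hs⟩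
    · have h1 : IsMeagre {s : ℕ → Bool | Pool.Agent.Helper21.Off.jt A s ∈ HasCompleteRel} := by
        by_contra h
        exact hA (Pool.Agent.Helper21.Off.generic_down h)
      filter_upwards [h1] with s hs
      exact ⟨fun h => (hs h).elim, fun h => (hA h).elim⟩
  intro ι κ _ _ Φ Ψ hΨ BB hBB
  obtain ⟨Y, Z, hY, hZ, hE⟩ := Pool.Agent.Helper21.Off.esy A hA
  obtain ⟨T, hT, hno, hcons, hdown, hup⟩ := Pool.Agent.Helper8.Sip.off_all A Y Z hY hZ hE
    (ι := ι ⊕ (ℕ × Bool)) (Sum.elim Φ fun c => accAlt c.1 c.2) Ψ hΨ BB hBB
  have hPH : ∀ k b k' b', AltP (join A T) k b ⊆ AltP (join A T) k' b' ↔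
      AltP A k b ⊆ AltP A k' b' := by
    intro k b k' b'
    simp only [← cls_accAlt]
    exact ⟨hdown (.inr (k, b)) (.inr (k', b')), hup (.inr (k, b)) (.inr (k', b'))
      (accAlt_syntactic k b)⟩
  refine ⟨T, hT, fun h => hno h, hcons, fun i j => hdown (.inl i) (.inl j),
    fun i j => hup (.inl i) (.inl j), hPH, ?_⟩
  rw [← AltP_zero (join A T) true, ← AltP_zero A true, ← AltP_one (join A T), ← AltP_one A,
    Set.Subset.antisymm_iff, Set.Subset.antisymm_iff, hPH, hPH]

end Pool.Agent.Helper8.Old.OffSwitchV2
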